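import Pool.Agent.W323.SC.Stm

set_option autoImplicit false
open Finset
open scoped Classical

namespace Pool.Agent.W233.SC

open Pool.Agent.W323.SC

theorem one_le_prod {α : Type} (S : Finset α) (z : α → ℝ) (hz : ∀ p, 0 ≤ z p) :
    1 ≤ ∏ p ∈ S, (1 + z p) := by
  calc (1 : ℝ) = ∏ _p ∈ S, (1 : ℝ) := by rw [Finset.prod_const_one]
    _ ≤ ∏ p ∈ S, (1 + z p) := by
        refine Finset.prod_le_prod (fun p _ => zero_le_one) fun p _ => ?_
        have := hz p
        linarith

theorem prod_row {α ι κ : Type} [Fintype α] [Fintype ι] [Fintype κ] (T : Finset α)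
    (A : α → ι) (B : α → κ) (z : α → ℝ) (i : ι) :
    ∏ j, (1 + yc T A B z i j) = ∏ p ∈ T.filter (fun p => A p = i), (1 + z p) := by
  rw [← Finset.prod_fiberwise (T.filter (fun p => A p = i)) B (fun p => 1 + z p)]
  refine Finset.prod_congr rfl fun j _ => ?_
  unfold yc
  rw [add_sub_cancel, Finset.filter_filter]

theorem prod_col {α ι κ : Type} [Fintype α] [Fintype ι] [Fintype κ] (T : Finset α)
    (A : α → ι) (B : α → κ) (z : α → ℝ) (j : κ) :
    ∏ i, (1 + yc T A B z i j) = ∏ p ∈ T.filter (fun p => B p = j), (1 + z p) := by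
  rw [← Finset.prod_fiberwise (T.filter (fun p => B p = j)) A (fun p => 1 + z p)]
  refine Finset.prod_congr rfl fun i _ => ?_
  unfold yc
  rw [add_sub_cancel, Finset.filter_filter]
  refine Finset.prod_congr ?_ fun _ _ => rfl
  ext p
  simp only [Finset.mem_filter]
  tauto

theorem mul : S_Mat → S_Mul := by
  intro hM α ι κ _ _ _ T A B z hz
  have h := hM ι κ (yc T A B z) (fun i j => by
    unfold yc
    have := one_le_prod (T.filter (fun p => A p = i ∧ B p = j)) z hz
    linarith)
  have e1 : ∏ i, ∏ j, (1 + yc T A B z i j) = ∏ p ∈ T, (1 + z p) := by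
    rw [← Finset.prod_fiberwise T A (fun p => 1 + z p)]
    exact Finset.prod_congr rfl fun i _ => prod_row T A B z i
  rw [e1] at h
  simp only [prod_row, prod_col] at h
  exact h

end Pool.Agent.W233.SC
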